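import Pool.Agent.W809.FKM.Stms

/-!
# FK-WALG, FK-SUM: the class `Wi` is a *-algebra; summability on the lattice
-/

set_option autoImplicit false

open scoped ComplexConjugate Topology
open Complex

namespace Pool.Agent.W809.FKM.Q

open Pool.Agent.W809.FKM


/-- the shear `(z, w) ↦ (z - w, w)` -/
def shear : Pool.Agent.W809.FKM.Lat × Pool.Agent.W809.FKM.Lat ≃ Pool.Agent.W809.FKM.Lat × Pool.Agent.W809.FKM.Lat where
  toFun p := (p.1 - p.2, p.2)
  invFun p := (p.1 + p.2, p.2)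
  left_inv p := by simp
  right_inv p := by simp

theorem conv_summable {b c : Pool.Agent.W809.FKM.Lat → ℝ} (hb0 : ∀ z, 0 ≤ b z) (hc0 : ∀ z, 0 ≤ c z)
    (hb : Summable b) (hc : Summable c) :
    Summable (fun p : Pool.Agent.W809.FKM.Lat × Pool.Agent.W809.FKM.Lat => b (p.1 - p.2) * c p.2) := by
  have h := hb.mul_of_nonneg hc hb0 hc0
  exact (shear.summable_iff (f := fun p : Pool.Agent.W809.FKM.Lat × Pool.Agent.W809.FKM.Lat => b p.1 * c p.2)).mpr h

variable {m : ℕ}

theorem wi_mul {B C : Op m} (hB : Wi B) (hC : Wi C) : Wi (B * C) := by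
  obtain ⟨b, hb0, hb, hbk⟩ := hB
  obtain ⟨c, hc0, hc, hck⟩ := hC
  have hF := conv_summable hb0 hc0 hb hc
  refine ⟨fun z => ∑' w, b (z - w) * c w, fun z => tsum_nonneg fun w => mul_nonneg (hb0 _) (hc0 _),
    hF.prod, ?_⟩
  intro x y v
  have h1 := hasSum_app (hasSum_op B (C (sg y v))) x
  have h2 : HasSum (fun w => b (x - y - w) * c w) (∑' w, b (x - y - w) * c w) :=
    (hF.prod_factor (x - y)).hasSum
  have h3 : HasSum (fun w => b (x - y - (w - y)) * c (w - y)) (∑' w, b (x - y - w) * c w) :=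
    ((Equiv.subRight y).hasSum_iff (f := fun w => b (x - y - w) * c w)).mpr h2
  have h4 := h3.mul_right ‖v‖
  change ‖(B (C (sg y v))) x‖ ≤ _
  refine h1.norm_le_of_bounded h4 fun w => ?_
  refine (hbk x w _).trans ?_
  have e1 : x - y - (w - y) = x - w := by abel
  rw [e1, mul_assoc]
  exact mul_le_mul_of_nonneg_left (hck w y v) (hb0 _)

theorem wi_add {B C : Op m} (hB : Wi B) (hC : Wi C) : Wi (B + C) := by
  obtain ⟨b, hb0, hb, hbk⟩ := hB
  obtain ⟨c, hc0, hc, hck⟩ := hC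
  refine ⟨fun z => b z + c z, fun z => add_nonneg (hb0 z) (hc0 z), hb.add hc, ?_⟩
  intro x y v
  change ‖(B (sg y v)) x + (C (sg y v)) x‖ ≤ _
  refine (norm_add_le _ _).trans ?_
  rw [add_mul]
  exact add_le_add (hbk x y v) (hck x y v)

theorem wi_star {B : Op m} (hB : Wi B) : Wi (star B) := by
  obtain ⟨b, hb0, hb, hbk⟩ := hB
  refine ⟨fun z => b (-z), fun z => hb0 _, (Equiv.neg Pool.Agent.W809.FKM.Lat).summable_iff.mpr hb, ?_⟩
  intro x y v
  set w := (star B (sg y v)) x with hw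
  have h1 := inner_star_sg B x y v w
  rw [← hw] at h1
  have h2 : ‖w‖ * ‖w‖ ≤ b (y - x) * ‖w‖ * ‖v‖ := by
    have h3 : ‖inner ℂ w w‖ = ‖w‖ * ‖w‖ := by
      rw [inner_self_eq_norm_sq_to_K, norm_pow, RCLike.norm_ofReal, abs_norm, sq]
    rw [← h3, h1]
    refine (norm_inner_le_norm _ _).trans ?_
    exact mul_le_mul_of_nonneg_right (hbk y x w) (norm_nonneg _)
  have e1 : -(x - y) = y - x := by abel
  change ‖w‖ ≤ b (-(x - y)) * ‖v‖
  rw [e1]
  rcases (norm_nonneg w).eq_or_lt with h0 | h0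
  · rw [← h0]; exact mul_nonneg (hb0 _) (norm_nonneg _)
  · refine le_of_mul_le_mul_right ?_ h0
    linarith

theorem wi_smul (c : ℂ) {B : Op m} (hB : Wi B) : Wi (c • B) := by
  obtain ⟨b, hb0, hb, hbk⟩ := hB
  refine ⟨fun z => ‖c‖ * b z, fun z => mul_nonneg (norm_nonneg _) (hb0 z), hb.mul_left _, ?_⟩
  intro x y v
  change ‖c • (B (sg y v)) x‖ ≤ _
  rw [norm_smul, mul_assoc]
  exact mul_le_mul_of_nonneg_left (hbk x y v) (norm_nonneg _)

theorem wi_M (f : Pool.Agent.W809.FKM.Lat → ℂ) (C : ℝ) (hf : ∀ x, ‖f x‖ ≤ C) : Wi (M f : Op m) := by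
  classical
  have hC : 0 ≤ C := (norm_nonneg _).trans (hf 0)
  refine ⟨fun z => if z = 0 then C else 0, fun z => by dsimp only; split_ifs <;> simp [hC],
    (hasSum_ite_eq (0 : Pool.Agent.W809.FKM.Lat) C).summable, ?_⟩
  intro x y v
  rw [M_sg hf, smul_app, sg_app]
  dsimp only
  by_cases h : x = y
  · rw [if_pos h, if_pos (by rw [h, sub_self]), norm_smul]
    exact mul_le_mul_of_nonneg_right (hf y) (norm_nonneg _)
  · rw [if_neg h, if_neg (by rwa [sub_eq_zero])]
    simp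

theorem walg : S_WALG := fun _ =>
  ⟨fun _ _ => wi_mul, fun _ _ => wi_add, fun _ => wi_star, fun c _ => wi_smul c, wi_M⟩

theorem summable_int : Summable (fun n : ℤ => (1 + |(n : ℝ)|) ^ (-(3 / 2) : ℝ)) := by
  have h := Real.summable_abs_int_rpow (b := 3 / 2) (by norm_num)
  refine Summable.of_norm_bounded_eventually h ?_
  have hfin : {n : ℤ | ¬ ‖(1 + |(n : ℝ)|) ^ (-(3 / 2) : ℝ)‖ ≤ |(n : ℝ)| ^ (-(3 / 2) : ℝ)}.Finite := by
    refine (Set.finite_singleton (0 : ℤ)).subset fun n hn => ?_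
    by_contra h0
    apply hn
    have h1 : (0 : ℝ) < |(n : ℝ)| := abs_pos.mpr (by exact_mod_cast h0)
    rw [Real.norm_of_nonneg (by positivity)]
    exact Real.rpow_le_rpow_of_nonpos h1 (by linarith) (by norm_num)
  exact Filter.eventually_cofinite.mpr hfin

theorem sum : S_SUM := by
  have h := summable_int.mul_of_nonneg summable_int (fun n => by positivity)
    (fun n => by positivity)
  refine Summable.of_nonneg_of_le (fun z => by positivity) (fun z => ?_) h
  have h1 := abs_fst_le z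
  have h2 := abs_snd_le z
  have e : (1 + ‖pt z‖) ^ (-3 : ℝ) = (1 + ‖pt z‖) ^ (-(3 / 2) : ℝ) * (1 + ‖pt z‖) ^ (-(3 / 2) : ℝ) := by
    rw [← Real.rpow_add (by positivity)]
    norm_num
  rw [e]
  refine mul_le_mul ?_ ?_ (by positivity) (by positivity)
  · exact Real.rpow_le_rpow_of_nonpos (by positivity) (by linarith) (by norm_num)
  · exact Real.rpow_le_rpow_of_nonpos (by positivity) (by linarith) (by norm_num)

theorem wdec : S_WDEC := by
  intro m B C hB
  refine ⟨fun z => |C| * (1 + ‖pt z‖) ^ (-3 : ℝ), fun z => by positivity,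
    Summable.mul_left _ sum, ?_⟩
  intro x y v
  refine (hB x y v).trans (mul_le_mul_of_nonneg_right ?_ (norm_nonneg _))
  dsimp only
  rw [dst_eq, div_eq_mul_inv]
  have e : ((1 + ‖pt (x - y)‖) ^ 3)⁻¹ = (1 + ‖pt (x - y)‖) ^ (-3 : ℝ) := by
    rw [Real.rpow_neg (by positivity)]
    norm_num
  rw [e]
  exact mul_le_mul_of_nonneg_right (le_abs_self C) (by positivity)

end Pool.Agent.W809.FKM.Q
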