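import Pool.Agent.W809.FKM.Stms
import Pool.Agent.W809.FKM.Q.Ari

/-!
# FK-CMP: comparison of `g(H)` and `g(H')`
-/

set_option autoImplicit false
set_option linter.unusedSectionVars false

open scoped ComplexConjugate Topology
open Complex

namespace Pool.Agent.W809.FKM.Q

open Pool.Agent.W809.FKM


section abs

variable {E : Type} [NormedAddCommGroup E] [InnerProductSpace ℂ E] [CompleteSpace E]

theorem norm_exp_le {H : E →L[ℂ] E} (hH : IsSelfAdjoint H) (t : ℝ) :
    ‖NormedSpace.exp ((I * t) • H)‖ ≤ 1 := by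
  let +nondep : NormedAlgebra ℚ (E →L[ℂ] E) := .restrictScalars ℚ ℂ (E →L[ℂ] E)
  have h : (I * t) • H ∈ skewAdjoint (E →L[ℂ] E) := by
    rw [skewAdjoint.mem_iff, star_smul, hH.star_eq, ← neg_smul]
    congr 1
    simp
  have h1 := (Unitary.mem_iff.1 (NormedSpace.exp_mem_unitary_of_mem_skewAdjoint h)).1
  set U := NormedSpace.exp ((I * t) • H) with hU
  have h2 := CStarRing.norm_star_mul_self (x := U)
  rw [h1] at h2
  have h3 : ‖(1 : E →L[ℂ] E)‖ ≤ 1 := ContinuousLinearMap.norm_id_le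
  nlinarith [norm_nonneg U]

theorem exp_mul_exp_neg (H : E →L[ℂ] E) (z : ℂ) :
    NormedSpace.exp (z • H) * NormedSpace.exp ((-z) • H) = 1 := by
  let +nondep : NormedAlgebra ℚ (E →L[ℂ] E) := .restrictScalars ℚ ℂ (E →L[ℂ] E)
  have hc : Commute (z • H) ((-z) • H) := ((Commute.refl H).smul_left _).smul_right _
  rw [← NormedSpace.exp_add_of_commute hc, ← add_smul, add_neg_cancel, zero_smul,
    NormedSpace.exp_zero]

/-- Duhamel's estimate -/
theorem exp_diff {H H' : E →L[ℂ] E} (hH : IsSelfAdjoint H) (t : ℝ) (u : E) (B : ℝ)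
    (hB : ∀ s : ℝ, |s| ≤ |t| → ‖(H - H') (NormedSpace.exp ((I * s) • H') u)‖ ≤ B) :
    ‖NormedSpace.exp ((I * t) • H') u - NormedSpace.exp ((I * t) • H) u‖ ≤ |t| * B := by
  let +nondep : NormedAlgebra ℚ (E →L[ℂ] E) := .restrictScalars ℚ ℂ (E →L[ℂ] E)
  set x1 : E →L[ℂ] E := (-(I * t)) • H with hx1
  set x2 : E →L[ℂ] E := (I * t) • H' with hx2
  set Φ : ℝ → E →L[ℂ] E := fun s => NormedSpace.exp (s • x1) * NormedSpace.exp (s • x2) with hΦ
  have hd : ∀ s : ℝ, HasDerivAt Φ (NormedSpace.exp (s • x1) * (x1 + x2) *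
      NormedSpace.exp (s • x2)) s := by
    intro s
    have h1 := hasDerivAt_exp_smul_const (𝕂 := ℝ) x1 s
    have h2 := hasDerivAt_exp_smul_const' (𝕂 := ℝ) x2 s
    refine (h1.mul h2).congr_deriv ?_
    noncomm_ring
  set Lu : (E →L[ℂ] E) →L[ℝ] E := (ContinuousLinearMap.apply ℂ E u).restrictScalars ℝ with hLu
  have hd2 : ∀ s : ℝ, HasDerivAt (fun s => Φ s u) ((NormedSpace.exp (s • x1) * (x1 + x2) *
      NormedSpace.exp (s • x2)) u) s := fun s =>
    Lu.hasFDerivAt.comp_hasDerivAt s (hd s)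
  have e1 : ∀ s : ℝ, s • x1 = (I * ((-(s * t) : ℝ) : ℂ)) • H := fun s => by
    rw [hx1, ← Complex.coe_smul, smul_smul]
    congr 1
    push_cast; ring
  have e2 : ∀ s : ℝ, s • x2 = (I * ((s * t : ℝ) : ℂ)) • H' := fun s => by
    rw [hx2, ← Complex.coe_smul, smul_smul]
    congr 1
    push_cast; ring
  have e3 : ∀ s : ℝ, (s • x1 + s • x2 : E →L[ℂ] E) = s • (x1 + x2) := fun s => (smul_add _ _ _).symm
  have hbd : ∀ s ∈ Set.Ico (0 : ℝ) 1, ‖(NormedSpace.exp (s • x1) * (x1 + x2) *
      NormedSpace.exp (s • x2)) u‖ ≤ |t| * B := by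
    intro s hs
    change ‖NormedSpace.exp (s • x1) ((x1 + x2) (NormedSpace.exp (s • x2) u))‖ ≤ _
    refine (ContinuousLinearMap.le_opNorm _ _).trans ?_
    have h1 : ‖NormedSpace.exp (s • x1)‖ ≤ 1 := by
      rw [e1]
      exact norm_exp_le hH _
    refine (mul_le_of_le_one_left (norm_nonneg _) h1).trans ?_
    have h2 : ∀ w : E, (x1 + x2) w = (-(I * t)) • ((H - H') w) := fun w => by
      rw [hx1, hx2]
      change (-(I * t)) • H w + (I * t) • H' w = (-(I * t)) • (H w - H' w)
      rw [smul_sub, neg_smul, neg_smul]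
      abel
    rw [h2, norm_smul, e2]
    have h3 : ‖-(I * (t : ℂ))‖ = |t| := by
      rw [norm_neg, norm_mul, Complex.norm_I, one_mul, Complex.norm_real, Real.norm_eq_abs]
    rw [h3]
    refine mul_le_mul_of_nonneg_left (hB (s * t) ?_) (abs_nonneg _)
    rw [abs_mul, abs_of_nonneg hs.1]
    exact mul_le_of_le_one_left (abs_nonneg _) hs.2.le
  have hmain := norm_image_sub_le_of_norm_deriv_le_segment_01'
    (fun s _ => (hd2 s).hasDerivWithinAt) hbd
  have e0 : Φ 0 u = u := by
    rw [hΦ]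
    simp only [zero_smul, NormedSpace.exp_zero]
    rfl
  have e4 : NormedSpace.exp ((I * t) • H') u - NormedSpace.exp ((I * t) • H) u =
      NormedSpace.exp ((I * t) • H) (Φ 1 u - Φ 0 u) := by
    rw [e0, map_sub]
    congr 1
    have e5 : NormedSpace.exp ((I * t) • H) * (NormedSpace.exp x1 * NormedSpace.exp x2) =
        NormedSpace.exp x2 := by
      rw [← mul_assoc, hx1, exp_mul_exp_neg, one_mul]
    rw [hΦ]
    simp only [one_smul]
    exact (congrArg (fun A : E →L[ℂ] E => A u) e5).symm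
  rw [e4]
  refine (ContinuousLinearMap.le_opNorm _ _).trans ?_
  exact (mul_le_of_le_one_left (norm_nonneg _) (norm_exp_le hH t)).trans hmain

end abs

theorem summable_exp {c : ℝ} (hc : 0 < c) :
    Summable (fun z : Pool.Agent.W809.FKM.Lat => Real.exp (-(c * ‖pt z‖))) := by
  refine Summable.of_nonneg_of_le (fun z => (Real.exp_pos _).le) (fun z => ?_)
    (Summable.mul_left (Real.exp c * (6 / c ^ 3)) sum)
  have h1 := Real.pow_div_factorial_le_exp (c * (1 + ‖pt z‖)) (by positivity) 3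
  have h2 : (0 : ℝ) < 1 + ‖pt z‖ := by positivity
  have e : (1 + ‖pt z‖) ^ (-3 : ℝ) = ((1 + ‖pt z‖) ^ 3)⁻¹ := by
    rw [Real.rpow_neg h2.le]
    norm_num
  rw [e]
  have e2 : Real.exp (-(c * ‖pt z‖)) = Real.exp c * (Real.exp (c * (1 + ‖pt z‖)))⁻¹ := by
    rw [← Real.exp_neg, ← Real.exp_add]; congr 1; ring
  have e3 : Real.exp c * (6 / c ^ 3) * ((1 + ‖pt z‖) ^ 3)⁻¹ =
      Real.exp c * ((c * (1 + ‖pt z‖)) ^ 3 / 6)⁻¹ := by
    rw [mul_pow]
    field_simp
  rw [e2, e3]
  refine mul_le_mul_of_nonneg_left ?_ (Real.exp_pos _).le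
  refine inv_anti₀ (by positivity) ?_
  have e4 : ((3 : ℕ).factorial : ℝ) = 6 := by norm_num [Nat.factorial]
  rw [e4] at h1
  exact h1

theorem cmp (h0 : S_SCHUR) (h1 : S_ULOC) (h2 : S_FOUR) (h3 : S_ARI) (h4 : S_FCFC) : S_CMP := by
  intro m H H' ρ hH hH' hloc hρ hρl ⟨c, C, hc, hD⟩ g hg N
  obtain ⟨c0, A, hc0, hA, hU⟩ := h1 m H' hloc
  set c' : ℝ := min c0 c with hc'
  have hc'0 : 0 < c' := lt_min hc0 hc
  set b : Pool.Agent.W809.FKM.Lat → ℝ := fun z => |C| * Real.exp (-(c * ‖pt z‖)) with hb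
  have hb0 : ∀ z, 0 ≤ b z := fun z => by rw [hb]; positivity
  have hbs : Summable b := (summable_exp hc).mul_left _
  set C1 : ℝ := ∑' z, b z with hC1
  have hC10 : 0 ≤ C1 := tsum_nonneg hb0
  -- the propagation estimate
  have hprop : ∀ (x : Pool.Agent.W809.FKM.Lat) (v : Vm m) (s : ℝ),
      ‖(H - H') (NormedSpace.exp ((I * s) • H') (sg x v))‖ ≤
        C1 * Real.exp (A * |s|) * (Real.exp (-(c' * ρ x)) * ‖v‖) := by
    intro x v s
    set w : Pool.Agent.W809.FKM.Lat → ℝ := fun z => c' * min (ρ z) (ρ x) with hw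
    have hw0 : ∀ z, 0 ≤ w z := fun z => mul_nonneg hc'0.le (le_min (hρ z) (hρ x))
    have hwle : ∀ z, w z ≤ c' * ρ x := fun z => mul_le_mul_of_nonneg_left (min_le_right _ _) hc'0.le
    have hwl : ∀ y z, |w y - w z| ≤ c0 * dst y z := by
      intro y z
      rw [hw]
      dsimp only
      rw [← mul_sub, abs_mul, abs_of_pos hc'0]
      have a1 : |min (ρ y) (ρ x) - min (ρ z) (ρ x)| ≤ |ρ y - ρ z| := by
        have := abs_min_sub_min_le_max (ρ y) (ρ x) (ρ z) (ρ x)
        simpa using this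
      have a2 := a1.trans (hρl y z)
      calc c' * |min (ρ y) (ρ x) - min (ρ z) (ρ x)| ≤ c' * dst y z :=
            mul_le_mul_of_nonneg_left a2 hc'0.le
        _ ≤ c0 * dst y z := mul_le_mul_of_nonneg_right (min_le_left _ _) (dst_nonneg _ _)
    have hUw := hU (fun z => -w z) (c' * ρ x) (fun z => by
      rw [abs_neg, abs_of_nonneg (hw0 z)]; exact hwle z) (fun y z => by
      have : -w y - -w z = -(w y - w z) := by ring
      rw [this, abs_neg]; exact hwl y z) s
    -- bounded multipliers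
    have hm1 : ∀ z, ‖((Real.exp (w z) : ℝ) : ℂ)‖ ≤ Real.exp (c' * ρ x) := fun z => by
      rw [Complex.norm_real, Real.norm_of_nonneg (Real.exp_pos _).le, Real.exp_le_exp]
      exact hwle z
    have hm2 : ∀ z, ‖((Real.exp (-w z) : ℝ) : ℂ)‖ ≤ 1 := fun z => by
      rw [Complex.norm_real, Real.norm_of_nonneg (Real.exp_pos _).le, Real.exp_le_one_iff]
      linarith [hw0 z]
    have hm1' : ∀ z, ‖((Real.exp (- -w z) : ℝ) : ℂ)‖ ≤ Real.exp (c' * ρ x) := fun z => by
      rw [neg_neg]; exact hm1 z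
    have hDM : ‖(H - H') * (M (fun z => ((Real.exp (w z) : ℝ) : ℂ)) : Op m)‖ ≤ C1 := by
      refine h0 m _ b hb0 hbs ?_
      intro z y u
      change ‖((H - H') (M (fun z => ((Real.exp (w z) : ℝ) : ℂ)) (sg y u))) z‖ ≤ _
      rw [M_sg hm1, map_smul, smul_app, norm_smul, Complex.norm_real,
        Real.norm_of_nonneg (Real.exp_pos _).le]
      have a1 := hD z y u
      dsimp only at a1
      have a2 : w y ≤ c * ρ y := by
        calc w y ≤ c' * ρ y := mul_le_mul_of_nonneg_left (min_le_left _ _) hc'0.le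
          _ ≤ c * ρ y := mul_le_mul_of_nonneg_right (min_le_right _ _) (hρ y)
      have a3 : Real.exp (w y) * (C * Real.exp (-(c * (dst z y + ρ y)))) ≤ b (z - y) := by
        rw [hb]
        dsimp only
        rw [← dst_eq]
        have a4 : C * Real.exp (-(c * (dst z y + ρ y))) ≤ |C| * Real.exp (-(c * (dst z y + ρ y))) :=
          mul_le_mul_of_nonneg_right (le_abs_self C) (Real.exp_pos _).le
        calc Real.exp (w y) * (C * Real.exp (-(c * (dst z y + ρ y))))
            ≤ Real.exp (w y) * (|C| * Real.exp (-(c * (dst z y + ρ y)))) :=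
              mul_le_mul_of_nonneg_left a4 (Real.exp_pos _).le
          _ = |C| * Real.exp (w y - c * (dst z y + ρ y)) := by
              rw [mul_left_comm, ← Real.exp_add]; congr 2
          _ ≤ |C| * Real.exp (-(c * dst z y)) := by
              refine mul_le_mul_of_nonneg_left (Real.exp_le_exp.mpr ?_) (abs_nonneg _)
              linarith
      calc Real.exp (w y) * ‖((H - H') (sg y u)) z‖
          ≤ Real.exp (w y) * (C * Real.exp (-(c * (dst z y + ρ y))) * ‖u‖) :=
            mul_le_mul_of_nonneg_left a1 (Real.exp_pos _).le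
        _ = Real.exp (w y) * (C * Real.exp (-(c * (dst z y + ρ y)))) * ‖u‖ := by ring
        _ ≤ b (z - y) * ‖u‖ := mul_le_mul_of_nonneg_right a3 (norm_nonneg _)
    -- factorisation
    set Em : Op m := M (fun z => ((Real.exp (-w z) : ℝ) : ℂ)) with hEm
    set Ep : Op m := M (fun z => ((Real.exp (w z) : ℝ) : ℂ)) with hEp
    have hEp' : (M (fun z => ((Real.exp (- -w z) : ℝ) : ℂ)) : Op m) = Ep := by
      rw [hEp]; simp only [neg_neg]
    rw [hEp'] at hUw
    have hpm : Ep * Em = 1 := by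
      rw [hEp, hEm, M_mul hm1 hm2, ← M_one]
      congr 1
      funext z
      rw [← Complex.ofReal_mul, ← Real.exp_add]
      simp
    have hfac : (H - H') (NormedSpace.exp ((I * s) • H') (sg x v)) =
        ((H - H') * Ep) ((Em * NormedSpace.exp ((I * s) • H') * Ep) (Em (sg x v))) := by
      have : (H - H') * NormedSpace.exp ((I * s) • H') =
          ((H - H') * Ep) * (Em * NormedSpace.exp ((I * s) • H') * Ep) * Em := by
        calc (H - H') * NormedSpace.exp ((I * s) • H')
            = (H - H') * 1 * NormedSpace.exp ((I * s) • H') * 1 := by rw [mul_one, mul_one]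
          _ = (H - H') * (Ep * Em) * NormedSpace.exp ((I * s) • H') * (Ep * Em) := by rw [hpm]
          _ = _ := by simp only [mul_assoc]
      exact congrArg (fun B : Op m => B (sg x v)) this
    have hlast : ‖Em (sg x v)‖ = Real.exp (-(c' * ρ x)) * ‖v‖ := by
      rw [hEm, M_sg hm2, norm_smul, norm_sg, Complex.norm_real,
        Real.norm_of_nonneg (Real.exp_pos _).le, hw]
      dsimp only
      rw [min_self]
    rw [hfac]
    refine (ContinuousLinearMap.le_opNorm _ _).trans ?_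
    rw [mul_assoc C1]
    refine mul_le_mul hDM ?_ (norm_nonneg _) hC10
    refine (ContinuousLinearMap.le_opNorm _ _).trans ?_
    rw [hlast]
    exact mul_le_mul_of_nonneg_right hUw (by positivity)
  -- the difference of the propagators
  have hdiff : ∀ (x : Pool.Agent.W809.FKM.Lat) (v : Vm m) (t : ℝ),
      ‖NormedSpace.exp ((I * t) • H') (sg x v) - NormedSpace.exp ((I * t) • H) (sg x v)‖ ≤
        (2 + C1) * min 1 (Real.exp ((A + 1) * |t| - c' * ρ x)) * ‖v‖ := by
    intro x v t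
    have a1 : ‖NormedSpace.exp ((I * t) • H') (sg x v) -
        NormedSpace.exp ((I * t) • H) (sg x v)‖ ≤ 2 * ‖v‖ := by
      refine (norm_sub_le _ _).trans ?_
      have b1 := (ContinuousLinearMap.le_opNorm (NormedSpace.exp ((I * t) • H')) (sg x v)).trans
        (mul_le_of_le_one_left (norm_nonneg _) (norm_exp_le hH' t))
      have b2 := (ContinuousLinearMap.le_opNorm (NormedSpace.exp ((I * t) • H)) (sg x v)).trans
        (mul_le_of_le_one_left (norm_nonneg _) (norm_exp_le hH t))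
      rw [norm_sg] at b1 b2
      linarith
    have a2 := exp_diff hH t (sg x v) (C1 * Real.exp (A * |t|) * (Real.exp (-(c' * ρ x)) * ‖v‖))
      (fun s hs => (hprop x v s).trans (by
        refine mul_le_mul_of_nonneg_right (mul_le_mul_of_nonneg_left (Real.exp_le_exp.mpr
          (mul_le_mul_of_nonneg_left hs hA)) hC10) (by positivity)))
    have a3 : |t| * (C1 * Real.exp (A * |t|) * (Real.exp (-(c' * ρ x)) * ‖v‖)) ≤
        C1 * Real.exp ((A + 1) * |t| - c' * ρ x) * ‖v‖ := by
      have b1 : |t| ≤ Real.exp |t| := by linarith [Real.add_one_le_exp |t|]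
      have e : Real.exp ((A + 1) * |t| - c' * ρ x) =
          Real.exp |t| * Real.exp (A * |t|) * Real.exp (-(c' * ρ x)) := by
        rw [← Real.exp_add, ← Real.exp_add]; congr 1; ring
      rw [e]
      calc |t| * (C1 * Real.exp (A * |t|) * (Real.exp (-(c' * ρ x)) * ‖v‖))
          ≤ Real.exp |t| * (C1 * Real.exp (A * |t|) * (Real.exp (-(c' * ρ x)) * ‖v‖)) :=
            mul_le_mul_of_nonneg_right b1 (by positivity)
        _ = _ := by ring
    rcases le_total 1 (Real.exp ((A + 1) * |t| - c' * ρ x)) with h | h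
    · rw [min_eq_left h]
      nlinarith [norm_nonneg v]
    · rw [min_eq_right h]
      have b1 := a2.trans a3
      have b2 : 0 ≤ Real.exp ((A + 1) * |t| - c' * ρ x) * ‖v‖ := by positivity
      nlinarith
  -- the Fourier series
  set r : ℝ := max (max ‖H‖ ‖H'‖) 1 with hr
  have hr0 : 0 < r := lt_of_lt_of_le one_pos (le_max_right _ _)
  obtain ⟨cc, hcc, hF⟩ := h2 g r hg hr0
  obtain ⟨hs, hari⟩ := h3 cc hcc
  set ω : ℝ := Real.pi / (2 * r) with hω
  have hω0 : 0 < ω := by positivity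
  obtain ⟨C2, hC2⟩ := hari ((A + 1) * ω) c' (by positivity) hc'0 N
  refine ⟨(2 + C1) * C2, fun x v => ?_⟩
  have f1 := h4 (HS m) H g r cc hH hg.continuous hr0
    ((le_max_left _ _).trans (le_max_left _ _)) hs hF
  have f2 := h4 (HS m) H' g r cc hH' hg.continuous hr0
    ((le_max_right _ _).trans (le_max_left _ _)) hs hF
  have f3 := (f1.sub f2).mapL (ContinuousLinearMap.apply ℂ (HS m) (sg x v))
  have hsum2 : Summable (fun n : ℤ => ‖cc n‖ *
      min 1 (Real.exp ((A + 1) * ω * |(n : ℝ)| - c' * ρ x))) :=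
    Summable.of_nonneg_of_le (fun n => by positivity)
      (fun n => mul_le_of_le_one_right (norm_nonneg _) (min_le_left _ _)) hs
  have f4 := (hsum2.hasSum.mul_left (2 + C1)).mul_right ‖v‖
  refine (f3.norm_le_of_bounded f4 fun n => ?_).trans ?_
  · have e : (ContinuousLinearMap.apply ℂ (HS m) (sg x v))
        (cc n • NormedSpace.exp ((I * (n * (Real.pi / (2 * r)) : ℂ)) • H) -
          cc n • NormedSpace.exp ((I * (n * (Real.pi / (2 * r)) : ℂ)) • H')) =
        -(cc n • (NormedSpace.exp ((I * ((n * ω : ℝ) : ℂ)) • H') (sg x v) -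
          NormedSpace.exp ((I * ((n * ω : ℝ) : ℂ)) • H) (sg x v))) := by
      have e1 : (((n : ℝ) * ω : ℝ) : ℂ) = (n * (Real.pi / (2 * r)) : ℂ) := by
        rw [hω]; push_cast; ring
      rw [e1, smul_sub, neg_sub]
      rfl
    rw [e, norm_neg, norm_smul]
    have g1 := hdiff x v (n * ω)
    have e2 : |(n : ℝ) * ω| = ω * |(n : ℝ)| := by
      rw [abs_mul, abs_of_pos hω0, mul_comm]
    rw [e2, ← mul_assoc] at g1
    calc ‖cc n‖ * _ ≤ ‖cc n‖ * ((2 + C1) *
          min 1 (Real.exp ((A + 1) * ω * |(n : ℝ)| - c' * ρ x)) * ‖v‖) :=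
          mul_le_mul_of_nonneg_left g1 (norm_nonneg _)
      _ = _ := by ring
  · have g2 := hC2 (ρ x) (hρ x)
    refine mul_le_mul_of_nonneg_right ?_ (norm_nonneg _)
    rw [mul_div_assoc]
    exact mul_le_mul_of_nonneg_left g2 (by positivity)

end Pool.Agent.W809.FKM.Q
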