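import Pool.Agent.W809.FKM.Stms
import Pool.Agent.W809.FKM.Q.Walg

/-!
# FK-NUCV: nuclearity of `(1 - Λ_R) B Λ_R`
-/

set_option autoImplicit false

open scoped ComplexConjugate Topology
open Complex

namespace Pool.Agent.W809.FKM.Q

open Pool.Agent.W809.FKM


theorem nucv (h1 : S_NUCK) (h2 : S_SUM) : S_NUCV := by
  intro m B R d hd hB1 hB2 ⟨c, β, hc, hβ, hR⟩
  obtain ⟨k, hk⟩ : ∃ k : ℕ, 3 ≤ β * k := by
    obtain ⟨k, hk⟩ := exists_nat_ge (3 / β)
    exact ⟨k, by rw [div_le_iff₀ hβ] at hk; linarith⟩
  obtain ⟨C, hC⟩ := hB1 (3 + k)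
  obtain ⟨C', hC'⟩ := hB2 (3 + k)
  set D : ℝ := (|C| + |C'|) * (2 / c) ^ k with hD
  have hD0 : 0 ≤ D := by positivity
  -- the kernel
  set K : Pool.Agent.W809.FKM.Lat → Pool.Agent.W809.FKM.Lat → ℝ := fun y x => D * ((1 + ‖pt (y - x)‖) ^ (-3 : ℝ) * (1 + ‖pt x‖) ^ (-3 : ℝ))
    with hK
  have hKp : ∀ y x, 0 ≤ K y x := fun y x => by rw [hK]; positivity
  refine h1 m _ K hKp ?_ ?_
  · have hF := conv_summable (b := fun z : Pool.Agent.W809.FKM.Lat => (1 + ‖pt z‖) ^ (-3 : ℝ))
      (c := fun z : Pool.Agent.W809.FKM.Lat => (1 + ‖pt z‖) ^ (-3 : ℝ)) (fun z => by positivity)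
      (fun z => by positivity) h2 h2
    exact hF.mul_left D
  · intro y x v
    have hK0 : 0 ≤ K y x * ‖v‖ := mul_nonneg (hKp y x) (norm_nonneg _)
    by_cases hx : x ∈ R
    · by_cases hy : y ∈ R
      · have e : (((1 - Lam R) * B * Lam R : Op m) (sg x v)) y = 0 := by
          rw [← Lam_compl]
          change (Lam Rᶜ (B (Lam R (sg x v)))) y = 0
          rw [Lam_app, Set.indicator_of_notMem (by simpa using hy)]
        rw [e, norm_zero]
        exact hK0
      · have e : (((1 - Lam R) * B * Lam R : Op m) (sg x v)) y = (B (sg x v)) y := by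
          rw [← Lam_compl]
          change (Lam Rᶜ (B (Lam R (sg x v)))) y = _
          rw [Lam_app, Set.indicator_of_mem (by simpa using hy), Lam_sg_mem hx]
        rw [e]
        have hw := hR x hx y hy
        rw [dst_comm] at hw
        have b1 := hC y x v
        have b2 := (norm_app_le (B (sg x v)) y).trans (hC' x v)
        dsimp only at b1
        set a : ℝ := 1 + dst y x with ha
        set t : ℝ := 1 + d x with ht
        have ha1 : 1 ≤ a := by rw [ha]; linarith [dst_nonneg y x]
        have ht1 : 1 ≤ t := by rw [ht]; linarith [hd x]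
        set w : ℝ := c * (1 + ‖pt x‖) ^ β with hwdef
        have hx1 : (1 : ℝ) ≤ 1 + ‖pt x‖ := by linarith [norm_nonneg (pt x)]
        have hw0 : 0 < w := by rw [hwdef]; positivity
        have hwat : w ≤ a + t := by linarith
        -- the block bound
        have key : ‖(B (sg x v)) y‖ ≤ (|C| + |C'|) / (a ^ 3 * (w / 2) ^ k) * ‖v‖ := by
          rcases le_total t a with hta | hta
          · have h3 : w / 2 ≤ a := by linarith
            refine b1.trans (mul_le_mul_of_nonneg_right ?_ (norm_nonneg _))
            have h4 : C / a ^ (3 + k) ≤ (|C| + |C'|) / a ^ (3 + k) := by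
              apply div_le_div_of_nonneg_right _ (by positivity)
              linarith [le_abs_self C, abs_nonneg C']
            refine h4.trans ?_
            rw [pow_add]
            apply div_le_div_of_nonneg_left (by positivity) (by positivity)
            exact mul_le_mul_of_nonneg_left (pow_le_pow_left₀ (by positivity) h3 k) (by positivity)
          · have h3 : w / 2 ≤ t := by linarith
            refine b2.trans (mul_le_mul_of_nonneg_right ?_ (norm_nonneg _))
            have h4 : C' / t ^ (3 + k) ≤ (|C| + |C'|) / t ^ (3 + k) := by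
              apply div_le_div_of_nonneg_right _ (by positivity)
              linarith [le_abs_self C', abs_nonneg C]
            refine h4.trans ?_
            rw [pow_add]
            apply div_le_div_of_nonneg_left (by positivity) (by positivity)
            exact mul_le_mul (pow_le_pow_left₀ (by positivity) hta 3)
              (pow_le_pow_left₀ (by positivity) h3 k) (by positivity) (by positivity)
        refine key.trans (mul_le_mul_of_nonneg_right ?_ (norm_nonneg _))
        rw [hK]
        dsimp only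
        rw [← dst_eq, ← ha, hD]
        have e1 : (w / 2) ^ k = (c / 2) ^ k * (1 + ‖pt x‖) ^ (β * k) := by
          rw [hwdef, Real.rpow_mul_natCast (by positivity), ← mul_pow]
          congr 1
          ring
        have e2 : a ^ (-3 : ℝ) = (a ^ 3)⁻¹ := by
          rw [Real.rpow_neg (by positivity)]
          norm_num
        have e3 : (2 / c) ^ k = ((c / 2) ^ k)⁻¹ := by
          rw [← inv_pow, inv_div]
        have e4 : ((1 + ‖pt x‖) ^ (β * k))⁻¹ ≤ (1 + ‖pt x‖) ^ (-3 : ℝ) := by
          rw [← Real.rpow_neg (by positivity)]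
          exact Real.rpow_le_rpow_of_exponent_le hx1 (by linarith)
        rw [e1, e2, e3, div_eq_mul_inv, mul_inv, mul_inv]
        have e5 : (0 : ℝ) ≤ (|C| + |C'|) * (a ^ 3)⁻¹ * ((c / 2) ^ k)⁻¹ := by positivity
        have e6 := mul_le_mul_of_nonneg_left e4 e5
        calc (|C| + |C'|) * ((a ^ 3)⁻¹ * (((c / 2) ^ k)⁻¹ * ((1 + ‖pt x‖) ^ (β * k))⁻¹))
            = (|C| + |C'|) * (a ^ 3)⁻¹ * ((c / 2) ^ k)⁻¹ * ((1 + ‖pt x‖) ^ (β * k))⁻¹ := by ring
          _ ≤ _ := e6
          _ = _ := by ring
    · have e : (((1 - Lam R) * B * Lam R : Op m) (sg x v)) = 0 := by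
        change (1 - Lam R : Op m) (B (Lam R (sg x v))) = 0
        rw [Lam_sg_notMem hx, map_zero, map_zero]
      rw [e, zero_app, norm_zero]
      exact hK0

end Pool.Agent.W809.FKM.Q
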