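import Pool.Agent.W809.FKM.Stms

/-!
# FK-PAR: constancy of the parity
-/

set_option autoImplicit false

open scoped ComplexConjugate Topology
open Complex

namespace Pool.Agent.W809.FKM.Q

open Pool.Agent.W809.FKM

theorem par_path (h : S_PLOC) : S_PAR := by
  intro E _ _ _ Θ F hΘ hF hodd hcpt
  have h1 : IsLocallyConstant (fun s : ℝ => par (F s)) := by
    rw [IsLocallyConstant.iff_eventually_eq]
    intro s
    obtain ⟨δ, hδ, hpar⟩ := h E Θ (F s) hΘ (hodd s) (hcpt s)
    have h2 : ∀ᶠ t in 𝓝 s, dist (F t) (F s) < δ := Metric.tendsto_nhds.mp (hF.tendsto s) δ hδ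
    filter_upwards [h2] with t ht
    refine hpar (F t) (hodd t) ?_
    rwa [dist_eq_norm] at ht
  exact h1.apply_eq_of_preconnectedSpace 0 1

theorem par_cpt (h : S_PAR) : S_PARC := by
  intro E _ _ _ Θ F G hΘ hF hG hFc hc
  set P : ℝ → E →L[ℂ] E := fun s => F + (s : ℂ) • (G - F) with hP
  have hodd : ∀ s, OddT Θ (P s) := fun s => hF.add ((hG.sub hF).smul _)
  have h1 := h E Θ P hΘ (by rw [hP]; fun_prop) hodd (fun s => by
    refine ess_of_sub hF (hodd s) hFc ?_
    have e : P s - F = (s : ℂ) • (G - F) := add_sub_cancel_left _ _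
    rw [e]
    exact cpt_smul _ hc)
  have e0 : P 0 = F := by rw [hP]; simp
  have e1 : P 1 = G := by rw [hP]; simp
  rwa [e0, e1] at h1

theorem fin : S_FIN := by
  intro E _ _ _ F hF
  set V := LinearMap.ker (F : E →ₗ[ℂ] E) with hV
  have hcl : IsClosed (V : Set E) := F.isClosed_ker
  have hK : ∀ x ∈ V, (star F * F - 1 : E →L[ℂ] E) x = -x := by
    intro x hx
    have hx' : F x = 0 := hx
    change star F (F x) - x = -x
    rw [hx', map_zero, zero_sub]
  have hmap : ∀ x ∈ V, ((star F * F - 1 : E →L[ℂ] E) : E →ₗ[ℂ] E) x ∈ V := by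
    intro x hx
    change (star F * F - 1 : E →L[ℂ] E) x ∈ V
    rw [hK x hx]
    exact V.neg_mem hx
  have h1 := IsCompactOperator.restrict (f := ((star F * F - 1 : E →L[ℂ] E) : E →ₗ[ℂ] E)) hF
    hmap hcl
  have h2 := h1.neg
  refine FiniteDimensional.of_isCompactOperator_id (𝕜 := ℂ) ?_
  have e : (-⇑((((star F * F - 1 : E →L[ℂ] E) : E →ₗ[ℂ] E)).restrict hmap)) = (id : V → V) := by
    funext x
    apply Subtype.ext
    change -((star F * F - 1 : E →L[ℂ] E) x) = (x : E)
    rw [hK x x.2, neg_neg]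
  rwa [e] at h2

end Pool.Agent.W809.FKM.Q
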