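import Pool.Agent.W809.FKM.Stms

/-!
# FK-NUCK: operators with summable kernels are nuclear
-/

set_option autoImplicit false

open scoped ComplexConjugate Topology
open Complex

namespace Pool.Agent.W809.FKM.Q

open Pool.Agent.W809.FKM


theorem nuck : S_NUCK := by
  intro m K k hk0 hk hK
  set e := EuclideanSpace.basisFun (Fin m) ℂ with he
  have hnorm : ∀ j, ‖e j‖ = 1 := fun j => e.orthonormal.1 j
  set φ : (Pool.Agent.W809.FKM.Lat × Pool.Agent.W809.FKM.Lat) × Fin m → HS m := fun p => sg p.1.1 ((K (sg p.1.2 (e p.2))) p.1.1) with hφ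
  set ψ : (Pool.Agent.W809.FKM.Lat × Pool.Agent.W809.FKM.Lat) × Fin m → HS m := fun p => sg p.1.2 (e p.2) with hψ
  have hbd : ∀ p, ‖φ p‖ * ‖ψ p‖ ≤ k p.1.1 p.1.2 * 1 := by
    intro p
    rw [hφ, hψ]
    dsimp only
    rw [norm_sg, norm_sg, hnorm, mul_one, mul_one]
    have := hK p.1.1 p.1.2 (e p.2)
    rwa [hnorm, mul_one] at this
  have hsum1 : Summable (fun p : (Pool.Agent.W809.FKM.Lat × Pool.Agent.W809.FKM.Lat) × Fin m => k p.1.1 p.1.2 * 1) :=
    hk.mul_of_nonneg (Summable.of_finite (f := fun _ : Fin m => (1 : ℝ))) (fun p => hk0 _ _)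
      (fun _ => zero_le_one)
  have hsum : Summable (fun p => ‖φ p‖ * ‖ψ p‖) :=
    Summable.of_nonneg_of_le (fun p => by positivity) hbd hsum1
  refine ⟨(Pool.Agent.W809.FKM.Lat × Pool.Agent.W809.FKM.Lat) × Fin m, φ, ψ, hsum, fun u => ?_⟩
  have hF : Summable (fun p => inner ℂ (ψ p) u • φ p) := by
    refine Summable.of_norm_bounded (hsum.mul_left ‖u‖) fun p => ?_
    rw [norm_smul]
    have := norm_inner_le_norm (𝕜 := ℂ) (ψ p) u
    calc ‖inner ℂ (ψ p) u‖ * ‖φ p‖ ≤ ‖ψ p‖ * ‖u‖ * ‖φ p‖ :=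
          mul_le_mul_of_nonneg_right this (norm_nonneg _)
      _ = _ := by ring
  have hs := hF.hasSum
  suffices h : (∑' p, inner ℂ (ψ p) u • φ p) = K u by rwa [h] at hs
  refine HS.ext fun x₀ => ?_
  have h1 := hasSum_app hs x₀
  set g : Pool.Agent.W809.FKM.Lat × Fin m → (Pool.Agent.W809.FKM.Lat × Pool.Agent.W809.FKM.Lat) × Fin m := fun q => ((x₀, q.1), q.2) with hg
  have hginj : Function.Injective g := by
    rintro ⟨y, j⟩ ⟨y', j'⟩ h
    simp only [hg, Prod.mk.injEq, true_and] at h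
    exact Prod.ext h.1 h.2
  have h2 : HasSum ((fun p => (inner ℂ (ψ p) u • φ p : HS m) x₀) ∘ g)
      ((∑' p, inner ℂ (ψ p) u • φ p : HS m) x₀) := by
    refine (hginj.hasSum_iff ?_).mpr h1
    rintro ⟨⟨x, y⟩, j⟩ hp
    have hx : x₀ ≠ x := by
      rintro rfl
      exact hp ⟨(y, j), rfl⟩
    rw [smul_app, hφ]
    dsimp only
    rw [sg_ne _ hx, smul_zero]
  have h3 : ∀ y, HasSum (fun j : Fin m => ((fun p => (inner ℂ (ψ p) u • φ p : HS m) x₀) ∘ g) (y, j))
      ((K (sg y (u y))) x₀) := by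
    intro y
    have h4 := hasSum_fintype (fun j : Fin m =>
      ((fun p => (inner ℂ (ψ p) u • φ p : HS m) x₀) ∘ g) (y, j))
    have h5 : (∑ j : Fin m, ((fun p => (inner ℂ (ψ p) u • φ p : HS m) x₀) ∘ g) (y, j)) =
        (K (sg y (u y))) x₀ := by
      have h6 := e.sum_repr' (u y)
      conv_rhs => rw [← h6]
      have h7 : sg y (∑ j, inner ℂ (e j) (u y) • e j) = ∑ j, inner ℂ (e j) (u y) • sg y (e j) := by
        change sgL y (∑ j, inner ℂ (e j) (u y) • e j) = _
        rw [map_sum]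
        refine Finset.sum_congr rfl fun j _ => ?_
        rw [map_smul]
        rfl
      rw [h7, map_sum, sum_app]
      refine Finset.sum_congr rfl fun j _ => ?_
      simp only [Function.comp_apply, hg, hφ, hψ, smul_app, map_smul, sg_self, inner_sg_left]
    rwa [h5] at h4
  exact (h2.prod_fiberwise h3).unique (hasSum_app (hasSum_op K u) x₀)

end Pool.Agent.W809.FKM.Q
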